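import Pool.Agent.U29.DZ.Stm

/-!
# Project DZ (helper29), package IDX: the index of a shell
-/

set_option autoImplicit false

open Filter Pool.Agent.U29.DZ

namespace Pool.Agent.U774.DZ

theorem t_IDX : S_IDX := by
  intro X hX hT x
  have hbdd : BddAbove {j : ℕ | X j ≤ |(x : ℝ)|} := by
    obtain ⟨N, hN⟩ := (hT.eventually (eventually_gt_atTop |(x : ℝ)|)).exists
    refine ⟨N, fun j hj => ?_⟩
    by_contra h
    push Not at h
    have h1 := hX h
    have h2 : X j ≤ |(x : ℝ)| := hj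
    linarith
  have h4 : ∀ j : ℕ, |(x : ℝ)| < X (j + 1) → idx X x ≤ j := by
    intro j hj
    refine csSup_le' fun i hi => ?_
    by_contra h
    push Not at h
    have h1 := hX.monotone (Nat.succ_le_of_lt h)
    have h2 : X i ≤ |(x : ℝ)| := hi
    have h3 : X (j + 1) ≤ X i := h1
    linarith
  have h5 : ∀ j : ℕ, X j ≤ |(x : ℝ)| → j ≤ idx X x := fun j hj => le_csSup hbdd hj
  refine ⟨fun h => ?_, ?_, fun j hj hj' => le_antisymm (h4 j hj') (h5 j hj), h4⟩
  · exact Nat.sSup_mem (s := {j : ℕ | X j ≤ |(x : ℝ)|}) ⟨0, h⟩ hbdd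
  · by_contra h
    push Not at h
    have := h5 _ h
    omega

end Pool.Agent.U774.DZ
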